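import Pool.Agent.Q120.RN.Pattern

/-!
# Cramér's model: almost surely all cheap patterns occur in `(x, 2x]`, for all large `x`
-/

set_option autoImplicit false

namespace Pool.Agent.Q120.RN

open Finset MeasureTheory Filter Pool.Agent.Q120.ET Pool.Agent.Q120.MF Pool.Agent.Q120.PT Pool.Agent.Q120.AD

variable {Ω : Type*} [MeasurableSpace Ω] {μ : Measure Ω} [IsProbabilityMeasure μ] {A : Ω → Set ℕ}

/-- The cost of a pattern `T` in a window of `D + 1` integers near `x`. -/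
noncomputable def cost (x D k : ℕ) : ℝ := k * Real.log (Real.log x) + (D + 1 - k) / Real.log x

theorem tll : Tendsto (fun n : ℕ => Real.log (Real.log (n : ℝ))) atTop atTop := Real.tendsto_log_atTop.comp hl

/-- The numeric estimate. -/
theorem numeric {ε : ℝ} (hε : 0 < ε) (hε1 : ε < 1) : ∀ᶠ x : ℕ in atTop, 3 ≤ x ∧
    ∀ D k : ℕ, k ≤ D + 1 → cost x D k ≤ (1 - ε) * Real.log x →
      D < ⌊2 * Real.log x ^ 2⌋₊ ∧ (x : ℝ) ^ (ε / 2) ≤ (x / (D + 1) : ℕ) *
        ((1 / Real.log (2 * x)) ^ k * Real.exp (-(((D : ℝ) + 1 - k) * (1 / Real.log x + 2 / Real.log x ^ 2)))) := by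
  filter_upwards [hl.eventually_ge_atTop 3, tll.eventually_ge_atTop 1, eventually_ge_atTop 3,
    ev_pow (4 * Real.exp 3) (ε / 2) (by positivity), ev_pow 4 1 one_pos] with x hL hll hx hp1 hp2
  refine ⟨hx, fun D k hk hc => ?_⟩
  obtain ⟨L, hLd⟩ : ∃ L : ℝ, L = Real.log x := ⟨_, rfl⟩
  unfold cost at hc
  rw [← hLd] at hL hll hc hp1 hp2 ⊢
  rw [Real.rpow_one] at hp2
  have hx0 : (0 : ℝ) < x := by
    have : 0 < x := by omega
    exact_mod_cast this
  have hk' : (0 : ℝ) ≤ (D : ℝ) + 1 - k := by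
    have : (k : ℝ) ≤ D + 1 := by exact_mod_cast hk
    linarith
  have hkL : (k : ℝ) ≤ L := by
    have h1 : (k : ℝ) * 1 ≤ k * Real.log L := mul_le_mul_of_nonneg_left hll (Nat.cast_nonneg k)
    have h2 : 0 ≤ ((D : ℝ) + 1 - k) / L := by positivity
    nlinarith
  have hDL : (D : ℝ) + 1 - k ≤ L ^ 2 := by
    have h1 : 0 ≤ (k : ℝ) * Real.log L := by positivity
    have h2 : ((D : ℝ) + 1 - k) / L ≤ L := by nlinarith
    rw [div_le_iff₀ (by linarith)] at h2
    nlinarith
  have hD2 : (D : ℝ) + 1 ≤ 2 * L ^ 2 := by nlinarith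
  constructor
  · have h1 : D + 1 ≤ ⌊2 * L ^ 2⌋₊ := Nat.le_floor (by push_cast; exact hD2)
    omega
  · have hM : (x : ℝ) / (4 * L ^ 2) ≤ ((x / (D + 1) : ℕ) : ℝ) := by
      have h1 : (x : ℝ) < ((x / (D + 1) : ℕ) + 1) * (D + 1) := by
        have h2 := Nat.div_add_mod x (D + 1)
        have h3 := Nat.mod_lt x (Nat.succ_pos D)
        have h4 : x < (x / (D + 1) + 1) * (D + 1) := by nlinarith
        exact_mod_cast h4
      have h2 : (x : ℝ) / (D + 1) < (x / (D + 1) : ℕ) + 1 := by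
        rw [div_lt_iff₀ (by positivity)]
        exact h1
      have h3 : (x : ℝ) / (2 * L ^ 2) ≤ (x : ℝ) / (D + 1) := div_le_div_of_nonneg_left hx0.le (by positivity) hD2
      have h4 : 1 ≤ (x : ℝ) / (4 * L ^ 2) := by
        rw [le_div_iff₀ (by positivity)]
        nlinarith [sq_nonneg L]
      have h5 : (x : ℝ) / (2 * L ^ 2) = x / (4 * L ^ 2) + x / (4 * L ^ 2) := by
        field_simp
        ring
      linarith
    have hlog2 : Real.log (2 * x) = L + Real.log 2 := by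
      rw [Real.log_mul (by norm_num) hx0.ne', hLd]
      ring
    have hl2 : 0 < Real.log 2 := Real.log_pos (by norm_num)
    have hl2' : Real.log 2 < 1 := by linarith [Real.log_two_lt_d9]
    have h1 : Real.exp (-(k * Real.log L) - 1) ≤ (1 / Real.log (2 * x)) ^ k := by
      have h2 : (1 / Real.log (2 * x)) ^ k = Real.exp (-(k * Real.log (L + Real.log 2))) := by
        rw [hlog2]
        have h3 : 1 / (L + Real.log 2) = Real.exp (-(Real.log (L + Real.log 2))) := by
          rw [Real.exp_neg, Real.exp_log (by linarith), one_div]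
        rw [h3, ← Real.exp_nat_mul]
        congr 1
        ring
      rw [h2, Real.exp_le_exp]
      have h3 : Real.log (L + Real.log 2) ≤ Real.log L + Real.log 2 / L := by
        have h4 : Real.log (L + Real.log 2) = Real.log L + Real.log (1 + Real.log 2 / L) := by
          rw [← Real.log_mul (by linarith) (by positivity)]
          congr 1
          field_simp
        have h5 := Real.log_le_sub_one_of_pos (show 0 < 1 + Real.log 2 / L by positivity)
        linarith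
      have h4 : (k : ℝ) * Real.log (L + Real.log 2) ≤ k * (Real.log L + Real.log 2 / L) :=
        mul_le_mul_of_nonneg_left h3 (Nat.cast_nonneg k)
      have h5 : (k : ℝ) * (Real.log 2 / L) ≤ 1 := by
        have h6 : (k : ℝ) * (Real.log 2 / L) ≤ L * (Real.log 2 / L) :=
          mul_le_mul_of_nonneg_right hkL (by positivity)
        have h7 : L * (Real.log 2 / L) = Real.log 2 := by field_simp
        linarith
      nlinarith
    have h2 : Real.exp (-((D + 1 - k) / L) - 2) ≤ Real.exp (-(((D : ℝ) + 1 - k) * (1 / L + 2 / L ^ 2))) := by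
      rw [Real.exp_le_exp]
      have h3 : ((D : ℝ) + 1 - k) * (1 / L + 2 / L ^ 2) = (D + 1 - k) / L + 2 * (((D : ℝ) + 1 - k) / L ^ 2) := by ring
      have h4 : ((D : ℝ) + 1 - k) / L ^ 2 ≤ 1 := by
        rw [div_le_one (by positivity)]
        exact hDL
      rw [h3]
      linarith
    have h3 : Real.exp (-3) * (x : ℝ) ^ (ε - 1) ≤
        (1 / Real.log (2 * x)) ^ k * Real.exp (-(((D : ℝ) + 1 - k) * (1 / L + 2 / L ^ 2))) := by
      have h4 : (x : ℝ) ^ (ε - 1) = Real.exp (-((1 - ε) * L)) := by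
        rw [Real.rpow_def_of_pos hx0, ← hLd]
        congr 1
        ring
      have h5 : Real.exp (-3) * (x : ℝ) ^ (ε - 1) ≤
          Real.exp (-(k * Real.log L) - 1) * Real.exp (-((D + 1 - k) / L) - 2) := by
        rw [h4, ← Real.exp_add, ← Real.exp_add, Real.exp_le_exp]
        linarith
      refine h5.trans (mul_le_mul h1 h2 (Real.exp_pos _).le (by
        have : 0 < Real.log (2 * x) := by rw [hlog2]; linarith
        positivity))
    have h4 : (x : ℝ) / (4 * L ^ 2) * (Real.exp (-3) * (x : ℝ) ^ (ε - 1)) ≤ (x / (D + 1) : ℕ) *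
        ((1 / Real.log (2 * x)) ^ k * Real.exp (-(((D : ℝ) + 1 - k) * (1 / L + 2 / L ^ 2)))) :=
      mul_le_mul hM h3 (by positivity) (Nat.cast_nonneg _)
    refine le_trans ?_ h4
    have h5 : (x : ℝ) * (x : ℝ) ^ (ε - 1) = (x : ℝ) ^ (ε / 2) * (x : ℝ) ^ (ε / 2) := by
      rw [← Real.rpow_add hx0, ← Real.rpow_one_add' hx0.le (by linarith)]
      congr 1
      ring
    have h6 : (x : ℝ) / (4 * L ^ 2) * (Real.exp (-3) * (x : ℝ) ^ (ε - 1)) =
        (x : ℝ) ^ (ε / 2) * ((x : ℝ) ^ (ε / 2) / (4 * Real.exp 3 * L ^ 2)) := by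
      rw [Real.exp_neg]
      have h7 := h5
      field_simp
      linarith
    rw [h6]
    have h7 : 1 ≤ (x : ℝ) ^ (ε / 2) / (4 * Real.exp 3 * L ^ 2) := by
      rw [le_div_iff₀ (by positivity), one_mul]
      refine le_trans ?_ hp1
      have h8 : L ^ 2 ≤ L ^ 3 := by nlinarith [sq_nonneg L]
      have h9 : 0 < 4 * Real.exp 3 := by positivity
      nlinarith
    have h8 : 0 ≤ (x : ℝ) ^ (ε / 2) := by positivity
    nlinarith

theorem ev_two {ε : ℝ} (hε : 0 < ε) : ∀ᶠ x : ℕ in atTop,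
    ((⌊2 * Real.log x ^ 2⌋₊ : ℝ) * 2 ^ (⌊2 * Real.log x ^ 2⌋₊ + 1)) * Real.exp (-(x : ℝ) ^ ε) ≤ (x : ℝ) ^ (-(2 : ℝ)) := by
  filter_upwards [hl.eventually_ge_atTop 3, eventually_ge_atTop 3, ev_pow 7 ε hε] with x hL hx hp
  obtain ⟨L, hLd⟩ : ∃ L : ℝ, L = Real.log x := ⟨_, rfl⟩
  rw [← hLd] at hL hp ⊢
  have hx0 : (0 : ℝ) < x := by
    have : 0 < x := by omega
    exact_mod_cast this
  obtain ⟨N, hN⟩ : ∃ N : ℕ, N = ⌊2 * L ^ 2⌋₊ := ⟨_, rfl⟩
  rw [← hN]
  have hN1 : (N : ℝ) ≤ 2 * L ^ 2 := by rw [hN]; exact Nat.floor_le (by positivity)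
  have h1 : (N : ℝ) ≤ 2 ^ N := by exact_mod_cast (Nat.lt_two_pow_self (n := N)).le
  have h2 : (N : ℝ) * 2 ^ (N + 1) ≤ Real.exp (2 * N + 1) := by
    have h3 : (2 : ℝ) ≤ Real.exp 1 := by
      have := Real.add_one_le_exp (1 : ℝ)
      linarith
    have h4 : (N : ℝ) * 2 ^ (N + 1) ≤ 2 ^ N * 2 ^ (N + 1) := mul_le_mul_of_nonneg_right h1 (by positivity)
    have h5 : (2 : ℝ) ^ N * 2 ^ (N + 1) = 2 ^ (2 * N + 1) := by rw [← pow_add]; congr 1; ring
    have h6 : (2 : ℝ) ^ (2 * N + 1) ≤ Real.exp 1 ^ (2 * N + 1) := pow_le_pow_left₀ (by norm_num) h3 _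
    have h7 : Real.exp 1 ^ (2 * N + 1) = Real.exp (2 * N + 1) := by
      rw [← Real.exp_nat_mul]
      congr 1
      push_cast
      ring
    linarith
  have h3 : (x : ℝ) ^ (-(2 : ℝ)) = Real.exp (-(2 * L)) := by
    rw [Real.rpow_def_of_pos hx0, ← hLd]
    congr 1
    ring
  rw [h3]
  calc (N : ℝ) * 2 ^ (N + 1) * Real.exp (-(x : ℝ) ^ ε) ≤ Real.exp (2 * N + 1) * Real.exp (-(x : ℝ) ^ ε) :=
        mul_le_mul_of_nonneg_right h2 (Real.exp_pos _).le
    _ = Real.exp (2 * N + 1 + -(x : ℝ) ^ ε) := (Real.exp_add _ _).symm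
    _ ≤ Real.exp (-(2 * L)) := by
        rw [Real.exp_le_exp]
        have h8 : 3 * L ^ 2 ≤ L ^ 3 := by nlinarith [sq_nonneg L]
        nlinarith

/-- **All cheap patterns occur.** -/
theorem all_patterns (hA : IsCramer μ A) {ε : ℝ} (hε : 0 < ε) (hε1 : ε < 1) : ∀ᵐ ω ∂μ, ∀ᶠ x : ℕ in atTop,
    ∀ (D : ℕ) (T : Finset ℕ), T ⊆ range (D + 1) → cost x D T.card ≤ (1 - ε) * Real.log x →
      ∃ n, x < n ∧ n + D ≤ 2 * x ∧ tr A (Icc n (n + D)) ω = sh n T := by
  classical
  obtain ⟨B, hB⟩ : ∃ B : ℕ → Set Ω, B = fun (x : ℕ) => {ω | ¬ ∀ (D : ℕ) (T : Finset ℕ), T ⊆ range (D + 1) →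
      cost x D T.card ≤ (1 - ε) * Real.log x →
      ∃ n, x < n ∧ n + D ≤ 2 * x ∧ tr A (Icc n (n + D)) ω = sh n T} := ⟨_, rfl⟩
  have hs : Summable (fun x : ℕ => (x : ℝ) ^ (-(2 : ℝ))) := Real.summable_nat_rpow.2 (by norm_num)
  have hbound : ∀ᶠ x : ℕ in atTop, μ.real (B x) ≤ (x : ℝ) ^ (-(2 : ℝ)) := by
    filter_upwards [numeric hε hε1, ev_two (show 0 < ε / 2 by linarith), hl.eventually_ge_atTop 2] with x hx1 hx2 hL
    obtain ⟨hx3, hnum⟩ := hx1
    refine le_trans ?_ hx2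
    obtain ⟨N, hN⟩ : ∃ N : ℕ, N = ⌊2 * Real.log x ^ 2⌋₊ := ⟨_, rfl⟩
    rw [← hN] at hnum ⊢
    obtain ⟨I, hI⟩ : ∃ I : Finset (ℕ × Finset ℕ), I = range N ×ˢ (range (N + 1)).powerset := ⟨_, rfl⟩
    have hcard : I.card = N * 2 ^ (N + 1) := by
      rw [hI, card_product, card_range, card_powerset, card_range]
    obtain ⟨E, hE⟩ : ∃ E : ℕ × Finset ℕ → Set Ω, E = fun (q : ℕ × Finset ℕ) =>
        if q.2 ⊆ range (q.1 + 1) ∧ cost x q.1 q.2.card ≤ (1 - ε) * Real.log x then
          {ω | ∀ i ∈ range (x / (q.1 + 1)), ¬ tr A (Icc (x + 1 + i * (q.1 + 1)) (x + 1 + i * (q.1 + 1) + q.1)) ω =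
            sh (x + 1 + i * (q.1 + 1)) q.2} else ∅ := ⟨_, rfl⟩
    have hsub : B x ⊆ ⋃ q ∈ I, E q := by
      intro ω hω
      rw [hB] at hω
      have hω' : ¬ ∀ (D : ℕ) (T : Finset ℕ), T ⊆ range (D + 1) → cost x D T.card ≤ (1 - ε) * Real.log x →
        ∃ n, x < n ∧ n + D ≤ 2 * x ∧ tr A (Icc n (n + D)) ω = sh n T := hω
      push Not at hω'
      obtain ⟨D, T, hT, hc, hno⟩ := hω'
      have hTc : T.card ≤ D + 1 := by
        have := card_le_card hT
        rwa [card_range] at this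
      have hDN := (hnum D T.card hTc hc).1
      refine Set.mem_biUnion (x := (D, T)) ?_ ?_
      · rw [hI]
        show (D, T) ∈ range N ×ˢ (range (N + 1)).powerset
        rw [mem_product, mem_range, mem_powerset]
        refine ⟨hDN, hT.trans (range_mono ?_)⟩
        show D + 1 ≤ N + 1
        omega
      · rw [hE]
        simp only
        rw [if_pos ⟨hT, hc⟩]
        intro i hi
        rw [mem_range] at hi
        apply hno
        · nlinarith [Nat.zero_le (i * (D + 1))]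
        · have h1 : (i + 1) * (D + 1) ≤ x / (D + 1) * (D + 1) := Nat.mul_le_mul_right _ hi
          have h2 := Nat.div_mul_le_self x (D + 1)
          nlinarith
    have hEb : ∀ q ∈ I, μ.real (E q) ≤ Real.exp (-(x : ℝ) ^ (ε / 2)) := by
      rintro ⟨D, T⟩ _
      rw [hE]
      simp only
      split_ifs with h
      · obtain ⟨hT, hc⟩ := h
        have hTc : T.card ≤ D + 1 := by
          have := card_le_card hT
          rwa [card_range] at this
        have h1 := (hnum D T.card hTc hc).2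
        refine (real_none hA hT hx3 (p := (1 / Real.log (2 * x)) ^ T.card *
          Real.exp (-(((D : ℝ) + 1 - T.card) * (1 / Real.log x + 2 / Real.log x ^ 2)))) (fun i hi => ?_)).trans ?_
        · refine le_pattern hT hL (by nlinarith [Nat.zero_le (i * (D + 1))]) ?_
          have h2 : (i + 1) * (D + 1) ≤ x / (D + 1) * (D + 1) := Nat.mul_le_mul_right _ hi
          have h3 := Nat.div_mul_le_self x (D + 1)
          have h4 : x + 1 + i * (D + 1) + D ≤ 2 * x := by nlinarith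
          exact_mod_cast h4
        · rw [Real.exp_le_exp]
          linarith
      · rw [measureReal_empty]
        exact (Real.exp_pos _).le
    have h1 := (measureReal_mono (μ := μ) hsub (measure_ne_top _ _)).trans (real_biUnion_le I E hEb)
    rw [hcard] at h1
    refine h1.trans (le_of_eq ?_)
    push_cast
    ring
  have h1 := ae_eventually_notMem (tsum_ne_top_of_real (μ := μ) hs (f := B) hbound)
  filter_upwards [h1] with ω hω
  filter_upwards [hω] with x hx
  rw [hB] at hx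
  exact not_not.1 hx

end Pool.Agent.Q120.RN
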