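import Pool.Agent.Q120.NC.Gap
import Pool.Agent.Q120.AD.Large

/-!
# Cramér's model: all cheap patterns occur
-/

set_option autoImplicit false

namespace Pool.Agent.Q120.RN

open Finset MeasureTheory Filter Pool.Agent.Q120.ET Pool.Agent.Q120.MF Pool.Agent.Q120.PT Pool.Agent.Q120.AD

variable {Ω : Type*} [MeasurableSpace Ω] {μ : Measure Ω} [IsProbabilityMeasure μ] {A : Ω → Set ℕ}

/-- The pattern `T` translated by `n`. -/
def sh (n : ℕ) (T : Finset ℕ) : Finset ℕ := T.image (fun t => n + t)

theorem card_sh (n : ℕ) (T : Finset ℕ) : (sh n T).card = T.card :=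
  card_image_of_injective _ (fun a b h => by simpa using h)

theorem sh_subset {n D : ℕ} {T : Finset ℕ} (hT : T ⊆ range (D + 1)) : sh n T ⊆ Icc n (n + D) := by
  intro m hm
  unfold sh at hm
  rw [mem_image] at hm
  obtain ⟨t, ht, rfl⟩ := hm
  have := mem_range.1 (hT ht)
  rw [mem_Icc]
  omega

theorem card_rest {n D : ℕ} {T : Finset ℕ} (hT : T ⊆ range (D + 1)) :
    ((Icc n (n + D) \ sh n T).card : ℝ) = D + 1 - T.card := by
  rw [card_sdiff_of_subset (sh_subset hT), Nat.card_Icc, card_sh]
  have h1 : T.card ≤ D + 1 := by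
    have := card_le_card hT
    rwa [card_range] at this
  rw [Nat.cast_sub (by omega)]
  have : n + D + 1 - n = D + 1 := by omega
  rw [this]
  push_cast
  ring

theorem le_pattern {n D x : ℕ} {T : Finset ℕ} (hT : T ⊆ range (D + 1)) (hL : 2 ≤ Real.log x) (hx : x ≤ n)
    {z : ℝ} (hz : ((n + D : ℕ) : ℝ) ≤ z) :
    (1 / Real.log z) ^ T.card * Real.exp (-(((D : ℝ) + 1 - T.card) * (1 / Real.log x + 2 / Real.log x ^ 2))) ≤
      cramerOn (Icc n (n + D)) (sh n T) := by
  have hx0 : (0 : ℝ) < x := by
    rcases Nat.eq_zero_or_pos x with h0 | h0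
    · rw [h0] at hL
      simp at hL
      linarith
    · exact_mod_cast h0
  have hlog : ∀ m ∈ Icc n (n + D), Real.log x ≤ Real.log m ∧ Real.log m ≤ Real.log z := by
    intro m hm
    rw [mem_Icc] at hm
    have h1 : (x : ℝ) ≤ m := by exact_mod_cast hx.trans hm.1
    have h2 : (m : ℝ) ≤ z := by
      refine le_trans ?_ hz
      exact_mod_cast hm.2
    exact ⟨Real.log_le_log hx0 h1, Real.log_le_log (by linarith) h2⟩
  unfold cramerOn
  have h1 : (1 / Real.log z) ^ T.card ≤ ∏ m ∈ sh n T, 1 / Real.log (m : ℝ) := by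
    rw [← card_sh n T]
    have hn0 : 2 ≤ Real.log z := by
      have := hlog n (by rw [mem_Icc]; omega)
      linarith
    have h2 : ∏ _m ∈ sh n T, (1 / Real.log z) ≤ ∏ m ∈ sh n T, 1 / Real.log (m : ℝ) := by
      apply Finset.prod_le_prod
      · intro i _
        positivity
      · intro m hm
        have h3 := hlog m (sh_subset hT hm)
        exact one_div_le_one_div_of_le (by linarith) h3.2
    rwa [prod_const] at h2
  have h2 : Real.exp (-(((D : ℝ) + 1 - T.card) * (1 / Real.log x + 2 / Real.log x ^ 2))) ≤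
      ∏ m ∈ Icc n (n + D) \ sh n T, (1 - 1 / Real.log (m : ℝ)) := by
    have h3 := le_pFree (W := Icc n (n + D) \ sh n T) hL hx0 (fun m hm => by
      rw [Finset.mem_sdiff, mem_Icc] at hm
      exact_mod_cast hx.trans hm.1.1)
    rw [card_rest hT] at h3
    exact h3
  exact mul_le_mul h1 h2 (Real.exp_pos _).le (prod_nonneg (fun m hm => by
    have h3 := hlog m (sh_subset hT hm)
    have : 0 < Real.log (m : ℝ) := by linarith
    positivity))

theorem pattern_le {n D : ℕ} {T : Finset ℕ} (hT : T ⊆ range (D + 1)) (hn : 3 ≤ n) :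
    cramerOn (Icc n (n + D)) (sh n T) ≤
      (1 / Real.log n) ^ T.card * Real.exp (-(((D : ℝ) + 1 - T.card) / Real.log ((n + D : ℕ) : ℝ))) := by
  unfold cramerOn
  have hn0 : (0 : ℝ) < n := by
    have : 0 < n := by omega
    exact_mod_cast this
  have h1 : ∏ m ∈ sh n T, 1 / Real.log (m : ℝ) ≤ (1 / Real.log n) ^ T.card := by
    rw [← card_sh n T, ← prod_const]
    apply Finset.prod_le_prod
    · intro m hm
      have h2 := sh_subset hT hm
      rw [mem_Icc] at h2
      have := one_lt_log (show 3 ≤ m by omega)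
      positivity
    · intro m hm
      have h2 := sh_subset hT hm
      rw [mem_Icc] at h2
      have h3 := one_lt_log hn
      exact one_div_le_one_div_of_le (by linarith) (Real.log_le_log hn0 (by exact_mod_cast h2.1))
  have h2 := pFree_le (W := Icc n (n + D) \ sh n T) (fun m hm => by
    rw [Finset.mem_sdiff, mem_Icc] at hm
    omega) (z := ((n + D : ℕ) : ℝ)) (fun m hm => by
    rw [Finset.mem_sdiff, mem_Icc] at hm
    exact_mod_cast hm.1.2)
  rw [card_rest hT] at h2
  have h3 : 0 ≤ pFree (Icc n (n + D) \ sh n T) := pFree_nonneg (fun m hm => by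
    rw [Finset.mem_sdiff, mem_Icc] at hm
    omega)
  exact mul_le_mul h1 h2 h3 (pow_nonneg (by have := one_lt_log hn; positivity) _)

theorem real_pattern (hA : IsCramer μ A) {n D : ℕ} {T : Finset ℕ} (hT : T ⊆ range (D + 1)) (hn : 3 ≤ n) :
    μ.real {ω | tr A (Icc n (n + D)) ω = sh n T} = cramerOn (Icc n (n + D)) (sh n T) := by
  have h1 := real_pred hA (W := Icc n (n + D)) (fun m hm => by rw [mem_Icc] at hm; omega) (fun S => S = sh n T)
  refine h1.trans ?_
  have h2 : (Icc n (n + D)).powerset.filter (fun S => S = sh n T) = {sh n T} := by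
    ext S
    rw [mem_filter, mem_singleton, mem_powerset]
    constructor
    · exact fun h => h.2
    · rintro rfl
      exact ⟨sh_subset hT, rfl⟩
  rw [h2, sum_singleton]

/-- The probability that a pattern does not occur in many disjoint windows. -/
theorem real_none (hA : IsCramer μ A) {x D M : ℕ} {T : Finset ℕ} (hT : T ⊆ range (D + 1)) (hx : 3 ≤ x) {p : ℝ}
    (hp : ∀ i < M, p ≤ cramerOn (Icc (x + 1 + i * (D + 1)) (x + 1 + i * (D + 1) + D)) (sh (x + 1 + i * (D + 1)) T)) :
    μ.real {ω | ∀ i ∈ range M, ¬ tr A (Icc (x + 1 + i * (D + 1)) (x + 1 + i * (D + 1) + D)) ω =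
      sh (x + 1 + i * (D + 1)) T} ≤ Real.exp (-(M * p)) := by
  have h1 := real_all hA (range M) (fun i => Icc (x + 1 + i * (D + 1)) (x + 1 + i * (D + 1) + D))
    (fun i _ m hm => by rw [mem_Icc] at hm; omega) (by
      have key : ∀ i j, i < j → Disjoint (Icc (x + 1 + i * (D + 1)) (x + 1 + i * (D + 1) + D))
          (Icc (x + 1 + j * (D + 1)) (x + 1 + j * (D + 1) + D)) := by
        intro i j hij
        rw [Finset.disjoint_left]
        intro m hm1 hm2
        rw [mem_Icc] at hm1 hm2
        have : (i + 1) * (D + 1) ≤ j * (D + 1) := Nat.mul_le_mul_right _ hij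
        nlinarith
      intro i _ j _ hij
      rcases Nat.lt_or_gt_of_ne hij with h | h
      · exact key i j h
      · exact (key j i h).symm) (fun i S => ¬ S = sh (x + 1 + i * (D + 1)) T)
  refine (le_of_eq h1).trans ?_
  have h2 : ∀ i ∈ range M, ∑ S ∈ (Icc (x + 1 + i * (D + 1)) (x + 1 + i * (D + 1) + D)).powerset with
      ¬ S = sh (x + 1 + i * (D + 1)) T, cramerOn (Icc (x + 1 + i * (D + 1)) (x + 1 + i * (D + 1) + D)) S ≤
        Real.exp (-p) := by
    intro i hi
    obtain ⟨n, hn⟩ : ∃ n, n = x + 1 + i * (D + 1) := ⟨_, rfl⟩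
    have h3 := hp i (mem_range.1 hi)
    rw [← hn] at h3 ⊢
    have h4 : ∑ S ∈ (Icc n (n + D)).powerset, cramerOn (Icc n (n + D)) S = 1 := sum_cramerOn _
    have h5 : (Icc n (n + D)).powerset.filter (fun S => S = sh n T) = {sh n T} := by
      ext S
      rw [mem_filter, mem_singleton, mem_powerset]
      constructor
      · exact fun h => h.2
      · rintro rfl
        exact ⟨sh_subset hT, rfl⟩
    have h6 := sum_filter_add_sum_filter_not (Icc n (n + D)).powerset (fun S => S = sh n T)
      (fun S => cramerOn (Icc n (n + D)) S)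
    rw [h5, sum_singleton, h4] at h6
    have h7 := Real.one_sub_le_exp_neg p
    linarith
  refine (Finset.prod_le_prod (fun i hi => ?_) h2).trans ?_
  · refine sum_nonneg (fun S hS => ?_)
    rw [mem_filter, mem_powerset] at hS
    exact cramerOn_nonneg (fun m hm => by rw [mem_Icc] at hm; omega) hS.1
  · rw [prod_const, card_range, ← Real.exp_nat_mul]
    apply le_of_eq
    congr 1
    ring

end Pool.Agent.Q120.RN
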