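import Pool.Agent.Q120.RN.All

/-!
# Cramér's model: runs of consecutive elements in arithmetic progression
-/

set_option autoImplicit false

namespace Pool.Agent.Q120.RN

open Finset MeasureTheory Filter Pool.Agent.Q120.ET Pool.Agent.Q120.MF Pool.Agent.Q120.PT Pool.Agent.Q120.AD

variable {Ω : Type*} [MeasurableSpace Ω] {μ : Measure Ω} [IsProbabilityMeasure μ] {A : Ω → Set ℕ}

/-- The elements of `S` in `[n, n + (k - 1) d]` are exactly `n, n + d, ..., n + (k - 1) d`. -/
def Run (S : Set ℕ) (n k d : ℕ) : Prop := ∀ m, n ≤ m → m ≤ n + (k - 1) * d → (m ∈ S ↔ ∃ i < k, m = n + i * d)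

/-- The pattern of a run. -/
def runT (k d : ℕ) : Finset ℕ := (range k).image (fun i => i * d)

theorem card_runT {k d : ℕ} (hd : 1 ≤ d) : (runT k d).card = k := by
  unfold runT
  rw [card_image_of_injective, card_range]
  intro a b h
  exact Nat.eq_of_mul_eq_mul_right hd h

theorem runT_subset (k d : ℕ) : runT k d ⊆ range ((k - 1) * d + 1) := by
  intro m hm
  unfold runT at hm
  rw [mem_image] at hm
  obtain ⟨i, hi, rfl⟩ := hm
  rw [mem_range] at hi ⊢
  have : i * d ≤ (k - 1) * d := Nat.mul_le_mul_right _ (by omega)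
  omega

theorem run_iff {n k d : ℕ} {ω : Ω} :
    Run (A ω) n k d ↔ tr A (Icc n (n + (k - 1) * d)) ω = sh n (runT k d) := by
  have h0 : ∀ m, m ∈ sh n (runT k d) ↔ ∃ i < k, m = n + i * d := by
    intro m
    unfold sh runT
    rw [mem_image]
    constructor
    · rintro ⟨t, ht, rfl⟩
      rw [mem_image] at ht
      obtain ⟨i, hi, rfl⟩ := ht
      exact ⟨i, mem_range.1 hi, rfl⟩
    · rintro ⟨i, hi, rfl⟩
      exact ⟨i * d, mem_image.2 ⟨i, mem_range.2 hi, rfl⟩, rfl⟩
  constructor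
  · intro h
    ext m
    rw [mem_tr, mem_Icc, h0]
    constructor
    · rintro ⟨⟨h1, h2⟩, h3⟩
      exact (h m h1 h2).1 h3
    · rintro ⟨i, hi, rfl⟩
      have h1 : i * d ≤ (k - 1) * d := Nat.mul_le_mul_right _ (by omega)
      exact ⟨⟨by omega, by omega⟩, (h _ (by omega) (by omega)).2 ⟨i, hi, rfl⟩⟩
  · intro h m h1 h2
    rw [← h0, ← h, mem_tr, mem_Icc]
    exact ⟨fun h3 => ⟨⟨h1, h2⟩, h3⟩, fun h3 => h3.2⟩

theorem run_mono {S : Set ℕ} {n k k' d : ℕ} (hk : k' ≤ k) (hk1 : 1 ≤ k') (hd : 1 ≤ d) (h : Run S n k d) :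
    Run S n k' d := by
  intro m h1 h2
  have h3 : (k' - 1) * d ≤ (k - 1) * d := Nat.mul_le_mul_right _ (by omega)
  rw [h m h1 (by omega)]
  constructor
  · rintro ⟨i, hi, rfl⟩
    refine ⟨i, ?_, rfl⟩
    by_contra hcon
    have h4 : k' * d ≤ i * d := Nat.mul_le_mul_right _ (by omega)
    have h5 : (k' - 1) * d + d = k' * d := by
      obtain ⟨j, rfl⟩ : ∃ j, k' = j + 1 := ⟨k' - 1, by omega⟩
      simp
      ring
    omega
  · rintro ⟨i, hi, rfl⟩
    exact ⟨i, by omega, rfl⟩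

/-- The cost of a run. -/
noncomputable def rc (n k d : ℕ) : ℝ := k * Real.log (Real.log n) + ((k : ℝ) - 1) * d / Real.log n

theorem cost_le_rc {x k d : ℕ} (hk : 1 ≤ k) (hx : 3 ≤ x) :
    cost x ((k - 1) * d) k ≤ rc x k d := by
  unfold cost rc
  have h1 := one_lt_log hx
  have h2 : (((k - 1) * d : ℕ) : ℝ) = ((k : ℝ) - 1) * d := by
    rw [Nat.cast_mul, Nat.cast_sub hk]
    simp
  rw [h2]
  have h3 : ((k : ℝ) - 1) * d + 1 - k ≤ ((k : ℝ) - 1) * d := by
    have : (1 : ℝ) ≤ k := by exact_mod_cast hk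
    linarith
  have h4 : (((k : ℝ) - 1) * d + 1 - k) / Real.log x ≤ ((k : ℝ) - 1) * d / Real.log x := by
    apply div_le_div_of_nonneg_right h3 (by linarith)
  linarith

/-- Every cheap run occurs. -/
theorem runs_occur (hA : IsCramer μ A) {ε : ℝ} (hε : 0 < ε) (hε1 : ε < 1) : ∀ᵐ ω ∂μ, ∀ᶠ x : ℕ in atTop,
    ∀ k d : ℕ, 1 ≤ k → 1 ≤ d → rc x k d ≤ (1 - ε) * Real.log x →
      ∃ n, x < n ∧ n + (k - 1) * d ≤ 2 * x ∧ Run (A ω) n k d := by
  filter_upwards [all_patterns hA hε hε1] with ω hω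
  filter_upwards [hω, eventually_ge_atTop 3] with x hx hx3 k d hk hd hc
  obtain ⟨n, h1, h2, h3⟩ := hx ((k - 1) * d) (runT k d) (runT_subset k d) (by
    rw [card_runT hd]
    exact (cost_le_rc hk hx3).trans hc)
  exact ⟨n, h1, h2, run_iff.2 h3⟩

/-- The probability of an expensive run. -/
theorem real_run_le (hA : IsCramer μ A) {ε : ℝ} (hε : 0 < ε) : ∀ᶠ n : ℕ in atTop, ∀ k d : ℕ, 2 ≤ k → 1 ≤ d →
    (k : ℝ) ≤ 3 * Real.log n → (d : ℝ) ≤ 2 * Real.log n ^ 2 → (1 + ε) * Real.log n ≤ rc n k d →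
      μ.real {ω | Run (A ω) n k d} ≤ Real.exp 4 * (n : ℝ) ^ (-(1 + ε)) := by
  filter_upwards [hl.eventually_ge_atTop 3, eventually_ge_atTop 3, ev_pow 3 (1 / 2) (by norm_num)] with
    n hL hn hp k d hk hd hkL hdL hc
  obtain ⟨L, hLd⟩ : ∃ L : ℝ, L = Real.log n := ⟨_, rfl⟩
  unfold rc at hc
  rw [← hLd] at hL hp hkL hdL hc
  have hn0 : (0 : ℝ) < n := by
    have : 0 < n := by omega
    exact_mod_cast this
  have h1 : {ω | Run (A ω) n k d} = {ω | tr A (Icc n (n + (k - 1) * d)) ω = sh n (runT k d)} := by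
    ext ω
    exact run_iff
  rw [h1, real_pattern hA (runT_subset k d) hn]
  refine (pattern_le (runT_subset k d) hn).trans ?_
  rw [card_runT hd, ← hLd]
  obtain ⟨D, hD⟩ : ∃ D : ℕ, D = (k - 1) * d := ⟨_, rfl⟩
  rw [← hD]
  have hk1 : (1 : ℝ) ≤ k := by
    have : 1 ≤ k := by omega
    exact_mod_cast this
  have hDr : (D : ℝ) = ((k : ℝ) - 1) * d := by
    rw [hD, Nat.cast_mul, Nat.cast_sub (by omega)]
    simp
  have hd1 : (1 : ℝ) ≤ d := by exact_mod_cast hd
  have hu0 : 0 ≤ (D : ℝ) + 1 - k := by rw [hDr]; nlinarith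
  have hD6 : (D : ℝ) ≤ 6 * L ^ 3 := by
    rw [hDr]
    have h2 : ((k : ℝ) - 1) * d ≤ (3 * L) * (2 * L ^ 2) :=
      mul_le_mul (by linarith) hdL (by linarith) (by linarith)
    nlinarith
  have hu6 : (D : ℝ) + 1 - k ≤ 6 * L ^ 3 := by linarith
  have hsq : 9 * L ^ 6 ≤ n := by
    have h2 : (3 * L ^ 3) ^ 2 ≤ ((n : ℝ) ^ ((1 : ℝ) / 2)) ^ 2 := pow_le_pow_left₀ (by positivity) hp 2
    have h3 : ((n : ℝ) ^ ((1 : ℝ) / 2)) ^ 2 = n := by
      rw [← Real.rpow_natCast, ← Real.rpow_mul hn0.le]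
      norm_num
    have h4 : (3 * L ^ 3) ^ 2 = 9 * L ^ 6 := by ring
    linarith
  have hlog : Real.log ((n + D : ℕ) : ℝ) ≤ L + 1 / L ^ 3 := by
    have h2 : Real.log ((n + D : ℕ) : ℝ) = L + Real.log (1 + D / n) := by
      rw [hLd, ← Real.log_mul hn0.ne' (by positivity)]
      congr 1
      push_cast
      field_simp
    have h3 := Real.log_le_sub_one_of_pos (show (0 : ℝ) < 1 + D / n by positivity)
    have h4 : (D : ℝ) / n ≤ 1 / L ^ 3 := by
      rw [div_le_div_iff₀ hn0 (by positivity)]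
      have h5 : (D : ℝ) * L ^ 3 ≤ 6 * L ^ 3 * L ^ 3 := mul_le_mul_of_nonneg_right hD6 (by positivity)
      have h6 : 6 * L ^ 3 * L ^ 3 = 6 * L ^ 6 := by ring
      have h7 : 0 ≤ L ^ 6 := by positivity
      linarith
    linarith
  have hlogL : L ≤ Real.log ((n + D : ℕ) : ℝ) := by
    rw [hLd]
    exact Real.log_le_log hn0 (by push_cast; linarith [Nat.cast_nonneg (α := ℝ) D])
  have hq : ((D : ℝ) + 1 - k) / L - 1 ≤ ((D : ℝ) + 1 - k) / Real.log ((n + D : ℕ) : ℝ) := by
    have h2 : ((D : ℝ) + 1 - k) / (L + 1 / L ^ 3) ≤ ((D : ℝ) + 1 - k) / Real.log ((n + D : ℕ) : ℝ) :=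
      div_le_div_of_nonneg_left hu0 (lt_of_lt_of_le (by linarith) hlogL) hlog
    refine le_trans ?_ h2
    rw [le_div_iff₀ (by positivity)]
    have h3 : (((D : ℝ) + 1 - k) / L - 1) * (L + 1 / L ^ 3) =
        ((D : ℝ) + 1 - k) + ((D : ℝ) + 1 - k) / L ^ 4 - L - 1 / L ^ 3 := by
      field_simp
      ring
    rw [h3]
    have h4 : ((D : ℝ) + 1 - k) / L ^ 4 ≤ L := by
      rw [div_le_iff₀ (by positivity)]
      have h5 : 6 * L ^ 3 ≤ L * L ^ 4 := by
        have e1 : L * L ^ 4 = L ^ 2 * L ^ 3 := by ring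
        rw [e1]
        exact mul_le_mul_of_nonneg_right (by nlinarith) (by positivity)
      linarith
    have h5 : 0 < 1 / L ^ 3 := by positivity
    linarith
  have hLpow : (1 / L) ^ k = Real.exp (-(k * Real.log L)) := by
    have h2 : 1 / L = Real.exp (-Real.log L) := by rw [Real.exp_neg, Real.exp_log (by linarith), one_div]
    rw [h2, ← Real.exp_nat_mul]
    congr 1
    ring
  have hnp : (n : ℝ) ^ (-(1 + ε)) = Real.exp (-((1 + ε) * L)) := by
    rw [Real.rpow_def_of_pos hn0, ← hLd]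
    congr 1
    ring
  rw [hLpow, hnp, ← Real.exp_add, ← Real.exp_add, Real.exp_le_exp]
  have h7 : ((D : ℝ) + 1 - k) / L = ((k : ℝ) - 1) * d / L - ((k : ℝ) - 1) / L := by
    rw [hDr]
    field_simp
    ring
  have h8 : ((k : ℝ) - 1) / L ≤ 3 := by
    rw [div_le_iff₀ (by linarith)]
    linarith
  rw [h7] at hq
  linarith

theorem log_le_half : ∀ᶠ n : ℕ in atTop, Real.log (Real.log (n : ℝ)) < Real.log n := by
  filter_upwards [hl.eventually_ge_atTop 1] with n hn
  have := Real.log_le_sub_one_of_pos (show 0 < Real.log (n : ℝ) by linarith)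
  linarith

/-- Expensive runs do not occur. -/
theorem runs_none (hA : IsCramer μ A) {ε : ℝ} (hε : 0 < ε) (hε1 : ε < 1 / 2) : ∀ᵐ ω ∂μ, ∀ᶠ n : ℕ in atTop,
    ∀ k d : ℕ, 2 ≤ k → 1 ≤ d → Run (A ω) n k d → rc n k d < (1 + ε) * Real.log n := by
  classical
  obtain ⟨B, hB⟩ : ∃ B : ℕ → Set Ω, B = fun (n : ℕ) => {ω | ¬ ∀ k d : ℕ, 2 ≤ k → 1 ≤ d →
    Run (A ω) n k d → rc n k d < (1 + ε) * Real.log n} := ⟨_, rfl⟩
  have hs : Summable (fun n : ℕ => 2 * (n : ℝ) ^ (-(1 + ε / 2))) :=
    (Real.summable_nat_rpow.2 (by linarith)).mul_left 2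
  have hbound : ∀ᶠ n : ℕ in atTop, μ.real (B n) ≤ 2 * (n : ℝ) ^ (-(1 + ε / 2)) := by
    filter_upwards [real_run_le hA hε, hl.eventually_ge_atTop 12, tll.eventually_ge_atTop 1, eventually_ge_atTop 3,
      log_le_half, ev_pow (6 * Real.exp 4) (ε / 2) (by positivity), ev_pow 3 (1 / 2) (by norm_num)] with
      n hrun hL hll hn hlt hp hp2
    obtain ⟨L, hLd⟩ : ∃ L : ℝ, L = Real.log n := ⟨_, rfl⟩
    rw [← hLd] at hL hll hlt hp hrun hp2
    have hn0 : (0 : ℝ) < n := by
      have : 0 < n := by omega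
      exact_mod_cast this
    obtain ⟨K, hK⟩ : ∃ K : ℕ, K = ⌊3 * L⌋₊ := ⟨_, rfl⟩
    obtain ⟨N, hN⟩ : ∃ N : ℕ, N = ⌊2 * L ^ 2⌋₊ := ⟨_, rfl⟩
    have hK1 : (K : ℝ) ≤ 3 * L := by rw [hK]; exact Nat.floor_le (by linarith)
    have hN1 : (N : ℝ) ≤ 2 * L ^ 2 := by rw [hN]; exact Nat.floor_le (by positivity)
    have hN2 : 2 * L ^ 2 < N + 1 := by rw [hN]; exact Nat.lt_floor_add_one _
    obtain ⟨I, hI⟩ : ∃ I : Finset (ℕ × ℕ), I = Icc 1 K ×ˢ Icc 1 N := ⟨_, rfl⟩
    obtain ⟨E, hE⟩ : ∃ E : ℕ × ℕ → Set Ω, E = fun (q : ℕ × ℕ) =>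
      if 2 ≤ q.1 ∧ (1 + ε) * L ≤ rc n q.1 q.2 then {ω | Run (A ω) n q.1 q.2} else ∅ := ⟨_, rfl⟩
    have hsub : B n ⊆ (⋃ q ∈ I, E q) ∪ NC.GapEv A (fun _ => N) n := by
      intro ω hω
      rw [hB] at hω
      have hω' : ¬ ∀ k d : ℕ, 2 ≤ k → 1 ≤ d → Run (A ω) n k d → rc n k d < (1 + ε) * Real.log n := hω
      push Not at hω'
      obtain ⟨k, d, hk, hd, hr, hc⟩ := hω'
      rw [← hLd] at hc
      by_cases hdN : d ≤ N
      · left
        have hex : ∃ j, (1 + ε) * L ≤ rc n j d := ⟨k, hc⟩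
        obtain ⟨k', hk'⟩ : ∃ k', k' = Nat.find hex := ⟨_, rfl⟩
        have h1 : (1 + ε) * L ≤ rc n k' d := by rw [hk']; exact Nat.find_spec hex
        have h2 : k' ≤ k := by rw [hk']; exact Nat.find_min' hex hc
        have h3 : ∀ j < k', ¬ (1 + ε) * L ≤ rc n j d := fun j hj => Nat.find_min hex (by rwa [hk'] at hj)
        have h4 : 2 ≤ k' := by
          by_contra hcon
          have h5 : k' = 0 ∨ k' = 1 := by omega
          rcases h5 with h5 | h5
          · rw [h5] at h1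
            unfold rc at h1
            rw [← hLd] at h1
            have h6 : ((0 : ℕ) : ℝ) * Real.log L + (((0 : ℕ) : ℝ) - 1) * d / L ≤ 0 := by
              have : 0 ≤ (d : ℝ) / L := by positivity
              push_cast
              have h7 : (0 - 1) * (d : ℝ) / L = -(d / L) := by ring
              rw [h7]
              linarith
            nlinarith
          · rw [h5] at h1
            unfold rc at h1
            rw [← hLd] at h1
            push_cast at h1
            simp only [sub_self, zero_mul, zero_div, add_zero, one_mul] at h1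
            nlinarith
        have h5 : (k' : ℝ) ≤ 3 * L := by
          have h6 := h3 (k' - 1) (by omega)
          push Not at h6
          unfold rc at h6
          rw [← hLd] at h6
          have h7 : ((k' - 1 : ℕ) : ℝ) = (k' : ℝ) - 1 := by
            rw [Nat.cast_sub (by omega)]
            simp
          rw [h7] at h6
          have h8 : (2 : ℝ) ≤ k' := by exact_mod_cast h4
          have h9 : 0 ≤ ((k' : ℝ) - 1 - 1) * d / L :=
            div_nonneg (mul_nonneg (by linarith) (Nat.cast_nonneg d)) (by linarith)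
          have h10 : ((k' : ℝ) - 1) * 1 ≤ ((k' : ℝ) - 1) * Real.log L :=
            mul_le_mul_of_nonneg_left hll (by linarith)
          nlinarith
        refine Set.mem_biUnion (x := (k', d)) ?_ ?_
        · rw [hI]
          show (k', d) ∈ Icc 1 K ×ˢ Icc 1 N
          rw [mem_product, mem_Icc, mem_Icc]
          refine ⟨⟨by omega, ?_⟩, hd, hdN⟩
          rw [hK]
          exact Nat.le_floor h5
        · rw [hE]
          simp only
          rw [if_pos ⟨h4, h1⟩]
          exact run_mono h2 (by omega) hd hr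
      · right
        push Not at hdN
        refine ⟨hn, ?_, fun m hm hnm => ?_⟩
        · exact (hr n (le_refl n) (by omega)).2 ⟨0, by omega, by simp⟩
        · by_contra hcon
          push Not at hcon
          have h1 : d ≤ (k - 1) * d := Nat.le_mul_of_pos_left _ (by omega)
          obtain ⟨i, hi, him⟩ := (hr m hnm.le (by omega)).1 hm
          rcases Nat.eq_zero_or_pos i with h0 | h0
          · rw [h0] at him
            omega
          · have h2 : d ≤ i * d := Nat.le_mul_of_pos_left _ h0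
            omega
    have hEb : ∀ q ∈ I, μ.real (E q) ≤ Real.exp 4 * (n : ℝ) ^ (-(1 + ε)) := by
      rintro ⟨k, d⟩ hq
      rw [hI, mem_product, mem_Icc, mem_Icc] at hq
      obtain ⟨⟨_, hkK⟩, hd1, hdN⟩ := hq
      rw [hE]
      simp only at hkK hd1 hdN ⊢
      split_ifs with h
      · refine hrun k d h.1 hd1 ?_ ?_ h.2
        · have : (k : ℝ) ≤ K := by exact_mod_cast hkK
          linarith
        · have : (d : ℝ) ≤ N := by exact_mod_cast hdN
          linarith
      · rw [measureReal_empty]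
        positivity
    have hG : μ.real (NC.GapEv A (fun _ => N) n) ≤ (n : ℝ) ^ (-(1 + ε / 2)) := by
      rw [NC.real_gapEv hA]
      unfold NC.gapP
      rw [if_pos hn, ← hLd]
      have h1 : pFree (Ioc n (n + N)) ≤ Real.exp (-(N / Real.log ((n + N : ℕ) : ℝ))) := by
        have h2 := pFree_le (W := Ioc n (n + N)) (fun m hm => by rw [mem_Ioc] at hm; omega)
          (z := ((n + N : ℕ) : ℝ)) (fun m hm => by rw [mem_Ioc] at hm; exact_mod_cast hm.2)
        rw [Nat.card_Ioc] at h2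
        have h3 : n + N - n = N := by omega
        rw [h3] at h2
        exact h2
      have h2 : Real.log ((n + N : ℕ) : ℝ) ≤ L + 1 := by
        have h3 : (n + N : ℕ) ≤ 2 * n := by
          have h4 : (N : ℝ) ≤ n := by
            have h5 : (n : ℝ) ^ ((1 : ℝ) / 2) ≤ n := by
              calc (n : ℝ) ^ ((1 : ℝ) / 2) ≤ (n : ℝ) ^ (1 : ℝ) :=
                    Real.rpow_le_rpow_of_exponent_le (by
                      have : 1 ≤ n := by omega
                      exact_mod_cast this) (by norm_num)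
                _ = n := Real.rpow_one _
            nlinarith [sq_nonneg L]
          have h5 : N ≤ n := by exact_mod_cast h4
          omega
        have h4 : Real.log ((n + N : ℕ) : ℝ) ≤ Real.log (2 * n) := by
          apply Real.log_le_log
          · have : 0 < n + N := by omega
            exact_mod_cast this
          · exact_mod_cast h3
        rw [Real.log_mul (by norm_num) hn0.ne', ← hLd] at h4
        linarith [Real.log_two_lt_d9]
      have h3 : (1 + ε / 2) * L ≤ N / Real.log ((n + N : ℕ) : ℝ) := by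
        have h4 : (N : ℝ) / (L + 1) ≤ N / Real.log ((n + N : ℕ) : ℝ) := by
          apply div_le_div_of_nonneg_left (Nat.cast_nonneg N) ?_ h2
          have h5 : 3 ≤ n + N := by omega
          have h6 := one_lt_log h5
          push_cast at h6 ⊢
          linarith
        refine le_trans ?_ h4
        rw [le_div_iff₀ (by linarith)]
        nlinarith
      have h4 : (n : ℝ) ^ (-(1 + ε / 2)) = Real.exp (-((1 + ε / 2) * L)) := by
        rw [Real.rpow_def_of_pos hn0, ← hLd]
        congr 1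
        ring
      rw [h4]
      calc 1 / L * pFree (Ioc n (n + N)) ≤ 1 * pFree (Ioc n (n + N)) := by
            apply mul_le_mul_of_nonneg_right
            · rw [div_le_one (by linarith)]
              linarith
            · exact pFree_nonneg (fun m hm => by rw [mem_Ioc] at hm; omega)
        _ ≤ Real.exp (-((1 + ε / 2) * L)) := by
            rw [one_mul]
            refine h1.trans ?_
            rw [Real.exp_le_exp]
            linarith
    have h1 := (measureReal_mono (μ := μ) hsub (measure_ne_top _ _)).trans (measureReal_union_le _ _)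
    have h2 := real_biUnion_le (μ := μ) I E hEb
    have hcard : (I.card : ℝ) ≤ 6 * L ^ 3 := by
      rw [hI, card_product, Nat.card_Icc, Nat.card_Icc]
      rw [Nat.add_sub_cancel, Nat.add_sub_cancel]
      push_cast
      have h5 : (K : ℝ) * N ≤ (3 * L) * (2 * L ^ 2) := mul_le_mul hK1 hN1 (Nat.cast_nonneg _) (by linarith)
      nlinarith
    have h3 : (I.card : ℝ) * (Real.exp 4 * (n : ℝ) ^ (-(1 + ε))) ≤ (n : ℝ) ^ (-(1 + ε / 2)) := by
      have h4 : (I.card : ℝ) * (Real.exp 4 * (n : ℝ) ^ (-(1 + ε))) ≤ 6 * L ^ 3 * (Real.exp 4 * (n : ℝ) ^ (-(1 + ε))) :=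
        mul_le_mul_of_nonneg_right hcard (by positivity)
      have h5 : 6 * L ^ 3 * (Real.exp 4 * (n : ℝ) ^ (-(1 + ε))) = (6 * Real.exp 4 * L ^ 3) * (n : ℝ) ^ (-(1 + ε)) := by
        ring
      have h6 : (6 * Real.exp 4 * L ^ 3) * (n : ℝ) ^ (-(1 + ε)) ≤ (n : ℝ) ^ (ε / 2) * (n : ℝ) ^ (-(1 + ε)) :=
        mul_le_mul_of_nonneg_right hp (by positivity)
      have h7 : (n : ℝ) ^ (ε / 2) * (n : ℝ) ^ (-(1 + ε)) = (n : ℝ) ^ (-(1 + ε / 2)) := by
        rw [← Real.rpow_add hn0]
        congr 1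
        ring
      linarith
    linarith
  have h1 := ae_eventually_notMem (tsum_ne_top_of_real (μ := μ) hs (f := B) hbound)
  filter_upwards [h1] with ω hω
  filter_upwards [hω] with x hx
  rw [hB] at hx
  exact not_not.1 hx

end Pool.Agent.Q120.RN
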