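import Pool.Agent.Q120.RN.Pattern
import Pool.Agent.Q120.SH.Basic

/-!
# Cramér's model: every small set of shifts
-/

set_option autoImplicit false

namespace Pool.Agent.Q120.RN

open Finset MeasureTheory Filter Pool.Agent.Q120.ET Pool.Agent.Q120.MF Pool.Agent.Q120.PT Pool.Agent.Q120.AD

variable {Ω : Type*} [MeasurableSpace Ω] {μ : Measure Ω} [IsProbabilityMeasure μ] {A : Ω → Set ℕ}

theorem mem_sh {n m : ℕ} {T : Finset ℕ} : m ∈ sh n T ↔ ∃ t ∈ T, m = n + t := by
  unfold sh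
  rw [mem_image]
  constructor
  · rintro ⟨t, ht, rfl⟩
    exact ⟨t, ht, rfl⟩
  · rintro ⟨t, ht, rfl⟩
    exact ⟨t, ht, rfl⟩

theorem cramerOn_self (W : Finset ℕ) : cramerOn W W = ∏ m ∈ W, 1 / Real.log (m : ℝ) := by
  unfold cramerOn
  rw [sdiff_self]
  simp

/-- The probability that all of `W` is in `A`. -/
theorem real_all_in (hA : IsCramer μ A) {W : Finset ℕ} (hW : ∀ m ∈ W, 3 ≤ m) :
    μ.real {ω | ∀ m ∈ W, m ∈ A ω} = ∏ m ∈ W, 1 / Real.log (m : ℝ) := by
  have h1 := real_pred hA hW (fun S => S = W)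
  have h2 : {ω | ∀ m ∈ W, m ∈ A ω} = {ω | tr A W ω = W} := by
    ext ω
    constructor
    · intro h
      show tr A W ω = W
      ext m
      rw [mem_tr]
      exact ⟨fun h3 => h3.1, fun h3 => ⟨h3, h m h3⟩⟩
    · intro h m hm
      have h3 : tr A W ω = W := h
      rw [← h3] at hm
      exact (mem_tr.1 hm).2
  rw [h2, ← cramerOn_self]
  refine h1.trans ?_
  have h3 : W.powerset.filter (fun S => S = W) = {W} := by
    ext S
    rw [mem_filter, mem_singleton, mem_powerset]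
    constructor
    · exact fun h => h.2
    · rintro rfl
      exact ⟨Subset.refl _, rfl⟩
  rw [h3, sum_singleton]

/-- The probability that no translate in a disjoint family is in `A`. -/
theorem real_none_in (hA : IsCramer μ A) {ι : Type*} [DecidableEq ι] (Z : Finset ι) (W : ι → Finset ℕ)
    (hW3 : ∀ i ∈ Z, ∀ m ∈ W i, 3 ≤ m) (hd : ∀ i ∈ Z, ∀ j ∈ Z, i ≠ j → Disjoint (W i) (W j)) {p : ℝ}
    (hp : ∀ i ∈ Z, p ≤ ∏ m ∈ W i, 1 / Real.log (m : ℝ)) :
    μ.real {ω | ∀ i ∈ Z, ¬ ∀ m ∈ W i, m ∈ A ω} ≤ Real.exp (-(Z.card * p)) := by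
  have h1 := real_all hA Z W hW3 hd (fun i S => ¬ S = W i)
  have h2 : {ω | ∀ i ∈ Z, ¬ ∀ m ∈ W i, m ∈ A ω} = {ω | ∀ i ∈ Z, ¬ tr A (W i) ω = W i} := by
    ext ω
    refine forall₂_congr (fun i _ => ?_)
    apply not_congr
    constructor
    · intro h
      ext m
      rw [mem_tr]
      exact ⟨fun h3 => h3.1, fun h3 => ⟨h3, h m h3⟩⟩
    · intro h m hm
      rw [← h] at hm
      exact (mem_tr.1 hm).2
  rw [h2]
  refine (le_of_eq h1).trans ?_
  have h3 : ∀ i ∈ Z, ∑ S ∈ (W i).powerset with ¬ S = W i, cramerOn (W i) S ≤ Real.exp (-p) := by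
    intro i hi
    have h4 : ∑ S ∈ (W i).powerset, cramerOn (W i) S = 1 := sum_cramerOn _
    have h5 : (W i).powerset.filter (fun S => S = W i) = {W i} := by
      ext S
      rw [mem_filter, mem_singleton, mem_powerset]
      constructor
      · exact fun h => h.2
      · rintro rfl
        exact ⟨Subset.refl _, rfl⟩
    have h6 := sum_filter_add_sum_filter_not (W i).powerset (fun S => S = W i) (fun S => cramerOn (W i) S)
    rw [h5, sum_singleton, h4, cramerOn_self] at h6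
    have h7 := Real.one_sub_le_exp_neg p
    have h8 := hp i hi
    linarith
  refine (Finset.prod_le_prod (fun i hi => ?_) h3).trans ?_
  · refine sum_nonneg (fun S hS => ?_)
    rw [mem_filter, mem_powerset] at hS
    exact cramerOn_nonneg (hW3 i hi) hS.1
  · rw [prod_const, ← Real.exp_nat_mul]
    apply le_of_eq
    congr 1
    ring

/-- Many disjoint translates. -/
theorem disjoint_translates (Y H : Finset ℕ) : ∃ Z ⊆ Y, (∀ n ∈ Z, ∀ m ∈ Z, n ≠ m → Disjoint (sh n H) (sh m H)) ∧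
    Y.card ≤ (H.card ^ 2 + 1) * Z.card := by
  classical
  obtain ⟨Z, h1, h2, h3⟩ := SH.greedy (fun n m => ¬ Disjoint (sh n H) (sh m H))
    (fun a b h => fun h' => h h'.symm) (H.card ^ 2) Y (fun n _ => by
      refine ⟨(H ×ˢ H).image (fun q => n + q.1 - q.2), ?_, ?_⟩
      · refine card_image_le.trans (le_of_eq ?_)
        rw [card_product, sq]
      · intro m _ hm
        rw [Finset.not_disjoint_iff] at hm
        obtain ⟨t, ht1, ht2⟩ := hm
        obtain ⟨a, ha, h4⟩ := mem_sh.1 ht1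
        obtain ⟨b, hb, h5⟩ := mem_sh.1 ht2
        rw [mem_image]
        refine ⟨(a, b), mem_product.2 ⟨ha, hb⟩, ?_⟩
        simp only
        omega)
  exact ⟨Z, h1, fun n hn m hm hnm => not_not.1 (h2 n hn m hm hnm), h3⟩

/-- The numeric estimate. -/
theorem numeric_sets {ε : ℝ} (hε : 0 < ε) (hε1 : ε < 1) (C : ℕ) : ∀ᶠ x : ℕ in atTop, 3 ≤ x ∧
    ∀ k : ℕ, k * Real.log (Real.log x) ≤ (1 - ε) * Real.log x → (k : ℝ) ≤ Real.log x ∧ ∀ M : ℕ, x ≤ (k ^ 2 + 1) * M →
      (x : ℝ) ^ (ε / 2) ≤ M * (1 / ((C + 2) * Real.log x)) ^ k := by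
  have htll : Tendsto (fun n : ℕ => Real.log (Real.log (n : ℝ))) atTop atTop := Real.tendsto_log_atTop.comp hl
  filter_upwards [hl.eventually_ge_atTop 3, htll.eventually_ge_atTop 1, eventually_ge_atTop 3,
    htll.eventually_ge_atTop (4 * Real.log (C + 2) / ε), ev_pow 2 (ε / 4) (by positivity)] with x hL hll hx hll2 hp
  refine ⟨hx, fun k hc => ?_⟩
  obtain ⟨L, hLd⟩ : ∃ L : ℝ, L = Real.log x := ⟨_, rfl⟩
  rw [← hLd] at hL hll hc hll2 hp ⊢
  have hx0 : (0 : ℝ) < x := by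
    have : 0 < x := by omega
    exact_mod_cast this
  have hkL : (k : ℝ) ≤ L := by
    have h1 : (k : ℝ) * 1 ≤ k * Real.log L := mul_le_mul_of_nonneg_left hll (Nat.cast_nonneg k)
    nlinarith
  refine ⟨hkL, fun M hM => ?_⟩
  have hM1 : (x : ℝ) / (2 * L ^ 2) ≤ M := by
    rw [div_le_iff₀ (by positivity)]
    have h1 : (x : ℝ) ≤ ((k : ℝ) ^ 2 + 1) * M := by exact_mod_cast hM
    have h2 : (k : ℝ) ^ 2 + 1 ≤ 2 * L ^ 2 := by
      have : (k : ℝ) ^ 2 ≤ L ^ 2 := pow_le_pow_left₀ (Nat.cast_nonneg k) hkL 2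
      nlinarith
    have h3 : ((k : ℝ) ^ 2 + 1) * M ≤ 2 * L ^ 2 * M := mul_le_mul_of_nonneg_right h2 (Nat.cast_nonneg M)
    nlinarith
  have hC0 : (0 : ℝ) < (C : ℝ) + 2 := by positivity
  have hlC : 0 ≤ Real.log ((C : ℝ) + 2) := Real.log_nonneg (by
    have : (0 : ℝ) ≤ C := Nat.cast_nonneg C
    linarith)
  have h1 : (x : ℝ) ^ (-(1 - 3 * ε / 4)) ≤ (1 / ((C + 2) * L)) ^ k := by
    have h2 : 1 / (((C : ℝ) + 2) * L) = Real.exp (-(Real.log (C + 2) + Real.log L)) := by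
      rw [Real.exp_neg, Real.exp_add, Real.exp_log hC0, Real.exp_log (by linarith), one_div]
    rw [h2, ← Real.exp_nat_mul, Real.rpow_def_of_pos hx0, ← hLd, Real.exp_le_exp]
    have h3 : (k : ℝ) * Real.log (C + 2) ≤ ε / 4 * L := by
      rw [div_le_iff₀ hε] at hll2
      have h4 : (k : ℝ) * (4 * Real.log (C + 2)) ≤ k * (Real.log L * ε) :=
        mul_le_mul_of_nonneg_left hll2 (Nat.cast_nonneg k)
      have h5 : (k : ℝ) * Real.log L * ε ≤ (1 - ε) * L * ε := mul_le_mul_of_nonneg_right hc hε.le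
      have h6 : 0 ≤ ε * ε * L := by positivity
      nlinarith
    nlinarith
  have h2 : (x : ℝ) / (2 * L ^ 2) * (x : ℝ) ^ (-(1 - 3 * ε / 4)) ≤ M * (1 / ((C + 2) * L)) ^ k :=
    mul_le_mul hM1 h1 (by positivity) (Nat.cast_nonneg M)
  refine le_trans ?_ h2
  have h3 : (x : ℝ) * (x : ℝ) ^ (-(1 - 3 * ε / 4)) = (x : ℝ) ^ (ε / 2) * (x : ℝ) ^ (ε / 4) := by
    rw [← Real.rpow_add hx0, ← Real.rpow_one_add' hx0.le (by linarith)]
    congr 1
    ring
  have h4 : (x : ℝ) / (2 * L ^ 2) * (x : ℝ) ^ (-(1 - 3 * ε / 4)) = (x : ℝ) ^ (ε / 2) * ((x : ℝ) ^ (ε / 4) / (2 * L ^ 2)) := by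
    have h5 : (x : ℝ) / (2 * L ^ 2) * (x : ℝ) ^ (-(1 - 3 * ε / 4)) =
      ((x : ℝ) * (x : ℝ) ^ (-(1 - 3 * ε / 4))) / (2 * L ^ 2) := by ring
    rw [h5, h3]
    ring
  rw [h4]
  have h5 : 1 ≤ (x : ℝ) ^ (ε / 4) / (2 * L ^ 2) := by
    rw [le_div_iff₀ (by positivity), one_mul]
    refine le_trans ?_ hp
    have : L ^ 2 ≤ L ^ 3 := by nlinarith [sq_nonneg L]
    linarith
  have h6 : 0 ≤ (x : ℝ) ^ (ε / 2) := by positivity
  nlinarith

theorem ev_count {ε : ℝ} (hε : 0 < ε) (C : ℕ) : ∀ᶠ x : ℕ in atTop,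
    ((⌊Real.log x⌋₊ + 1 : ℕ) : ℝ) * ((x : ℝ) ^ C + 1) ^ ⌊Real.log x⌋₊ * Real.exp (-(x : ℝ) ^ ε) ≤ (x : ℝ) ^ (-(2 : ℝ)) := by
  filter_upwards [hl.eventually_ge_atTop 3, eventually_ge_atTop 3, ev_pow (C + 4) ε hε] with x hL hx hp
  obtain ⟨L, hLd⟩ : ∃ L : ℝ, L = Real.log x := ⟨_, rfl⟩
  rw [← hLd] at hL hp ⊢
  have hx0 : (0 : ℝ) < x := by
    have : 0 < x := by omega
    exact_mod_cast this
  have hx1 : (1 : ℝ) ≤ x := by
    have : 1 ≤ x := by omega
    exact_mod_cast this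
  obtain ⟨K, hK⟩ : ∃ K : ℕ, K = ⌊L⌋₊ := ⟨_, rfl⟩
  rw [← hK]
  have hK1 : (K : ℝ) ≤ L := by rw [hK]; exact Nat.floor_le (by linarith)
  have hxe : (x : ℝ) = Real.exp L := by rw [hLd, Real.exp_log hx0]
  have h1 : ((K + 1 : ℕ) : ℝ) ≤ Real.exp L := by
    have := Real.add_one_le_exp L
    push_cast
    linarith
  have h2 : (x : ℝ) ^ C + 1 ≤ Real.exp ((C + 1) * L) := by
    have h3 : (1 : ℝ) ≤ (x : ℝ) ^ C := one_le_pow₀ hx1
    have h4 : (x : ℝ) ^ C = Real.exp (C * L) := by rw [hxe, ← Real.exp_nat_mul]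
    have h5 : Real.exp ((C + 1) * L) = Real.exp (C * L) * Real.exp L := by rw [← Real.exp_add]; congr 1; ring
    rw [h5, ← h4]
    have h6 : 2 ≤ Real.exp L := by
      have := Real.add_one_le_exp L
      linarith
    nlinarith
  have h3 : ((x : ℝ) ^ C + 1) ^ K ≤ Real.exp ((C + 1) * L ^ 2) := by
    calc ((x : ℝ) ^ C + 1) ^ K ≤ Real.exp ((C + 1) * L) ^ K := pow_le_pow_left₀ (by positivity) h2 K
      _ = Real.exp (K * ((C + 1) * L)) := by rw [← Real.exp_nat_mul]
      _ ≤ Real.exp ((C + 1) * L ^ 2) := by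
        rw [Real.exp_le_exp]
        have : (K : ℝ) * ((C + 1) * L) ≤ L * ((C + 1) * L) := mul_le_mul_of_nonneg_right hK1 (by positivity)
        nlinarith
  have h4 : (x : ℝ) ^ (-(2 : ℝ)) = Real.exp (-(2 * L)) := by
    rw [Real.rpow_def_of_pos hx0, ← hLd]
    congr 1
    ring
  rw [h4]
  calc ((K + 1 : ℕ) : ℝ) * ((x : ℝ) ^ C + 1) ^ K * Real.exp (-(x : ℝ) ^ ε) ≤
        Real.exp L * Real.exp ((C + 1) * L ^ 2) * Real.exp (-(x : ℝ) ^ ε) := by
        apply mul_le_mul_of_nonneg_right _ (Real.exp_pos _).le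
        exact mul_le_mul h1 h3 (by positivity) (Real.exp_pos _).le
    _ = Real.exp (L + (C + 1) * L ^ 2 + -(x : ℝ) ^ ε) := by rw [← Real.exp_add, ← Real.exp_add]
    _ ≤ Real.exp (-(2 * L)) := by
        rw [Real.exp_le_exp]
        have h5 : (C : ℝ) * L ^ 2 ≤ C * L ^ 3 :=
          mul_le_mul_of_nonneg_left (by nlinarith [sq_nonneg L]) (Nat.cast_nonneg C)
        have h6 : 3 * L ^ 2 ≤ L ^ 3 := by nlinarith [sq_nonneg L]
        nlinarith

/-- **Every small set of shifts.** -/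
theorem every_set (hA : IsCramer μ A) {ε : ℝ} (hε : 0 < ε) (hε1 : ε < 1) (C : ℕ) :
    ∀ᵐ ω ∂μ, ∀ᶠ x : ℕ in atTop, ∀ H : Finset ℕ, (∀ a ∈ H, a ≤ x ^ C) →
      H.card * Real.log (Real.log x) ≤ (1 - ε) * Real.log x → ∃ n, x < n ∧ n ≤ 2 * x ∧ ∀ a ∈ H, n + a ∈ A ω := by
  classical
  obtain ⟨B, hB⟩ : ∃ B : ℕ → Set Ω, B = fun (x : ℕ) => {ω | ¬ ∀ H : Finset ℕ, (∀ a ∈ H, a ≤ x ^ C) →
      H.card * Real.log (Real.log x) ≤ (1 - ε) * Real.log x → ∃ n, x < n ∧ n ≤ 2 * x ∧ ∀ a ∈ H, n + a ∈ A ω} :=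
    ⟨_, rfl⟩
  have hs : Summable (fun x : ℕ => (x : ℝ) ^ (-(2 : ℝ))) := Real.summable_nat_rpow.2 (by norm_num)
  have hbound : ∀ᶠ x : ℕ in atTop, μ.real (B x) ≤ (x : ℝ) ^ (-(2 : ℝ)) := by
    filter_upwards [numeric_sets hε hε1 C, ev_count (show 0 < ε / 2 by linarith) C,
      hl.eventually_ge_atTop 2] with x hx1 hx2 hL
    obtain ⟨hx3, hnum⟩ := hx1
    refine le_trans ?_ hx2
    have hx0 : (0 : ℝ) < x := by
      have : 0 < x := by omega
      exact_mod_cast this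
    obtain ⟨K, hK⟩ : ∃ K : ℕ, K = ⌊Real.log x⌋₊ := ⟨_, rfl⟩
    rw [← hK]
    obtain ⟨I, hI⟩ : ∃ I : Finset (Finset ℕ), I = (range (K + 1)).biUnion (fun j => (range (x ^ C + 1)).powersetCard j) :=
      ⟨_, rfl⟩
    have hcard : (I.card : ℝ) ≤ ((K + 1 : ℕ) : ℝ) * ((x : ℝ) ^ C + 1) ^ K := by
      have h1 : I.card ≤ (K + 1) * (x ^ C + 1) ^ K := by
        rw [hI]
        refine card_biUnion_le.trans ?_
        have h2 : ∀ j ∈ range (K + 1), ((range (x ^ C + 1)).powersetCard j).card ≤ (x ^ C + 1) ^ K := by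
          intro j hj
          rw [card_powersetCard, card_range]
          refine (Nat.choose_le_pow _ _).trans ?_
          exact Nat.pow_le_pow_right (by omega) (by rw [mem_range] at hj; omega)
        refine (sum_le_card_nsmul _ _ _ h2).trans ?_
        rw [card_range, smul_eq_mul]
      exact_mod_cast h1
    obtain ⟨E, hE⟩ : ∃ E : Finset ℕ → Set Ω, E = fun (H : Finset ℕ) =>
        if (∀ a ∈ H, a ≤ x ^ C) ∧ H.card * Real.log (Real.log x) ≤ (1 - ε) * Real.log x then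
          {ω | ∀ n ∈ Ioc x (2 * x), ¬ ∀ a ∈ H, n + a ∈ A ω} else ∅ := ⟨_, rfl⟩
    have hsub : B x ⊆ ⋃ H ∈ I, E H := by
      intro ω hω
      rw [hB] at hω
      have hω' : ¬ ∀ H : Finset ℕ, (∀ a ∈ H, a ≤ x ^ C) →
        H.card * Real.log (Real.log x) ≤ (1 - ε) * Real.log x → ∃ n, x < n ∧ n ≤ 2 * x ∧ ∀ a ∈ H, n + a ∈ A ω := hω
      push Not at hω'
      obtain ⟨H, h1, h2, h3⟩ := hω'
      refine Set.mem_biUnion (x := H) ?_ ?_
      · rw [hI]
        show H ∈ (range (K + 1)).biUnion (fun j => (range (x ^ C + 1)).powersetCard j)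
        rw [mem_biUnion]
        refine ⟨H.card, ?_, ?_⟩
        · rw [mem_range, hK]
          have := Nat.le_floor (hnum H.card h2).1
          omega
        · rw [mem_powersetCard]
          refine ⟨fun a ha => ?_, rfl⟩
          rw [mem_range]
          have := h1 a ha
          omega
      · rw [hE]
        simp only
        rw [if_pos ⟨h1, h2⟩]
        intro n hn
        rw [mem_Ioc] at hn
        push Not
        exact h3 n hn.1 hn.2
    have hEb : ∀ H ∈ I, μ.real (E H) ≤ Real.exp (-(x : ℝ) ^ (ε / 2)) := by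
      intro H _
      rw [hE]
      simp only
      split_ifs with h
      · obtain ⟨h1, h2⟩ := h
        obtain ⟨Z, hZ1, hZ2, hZ3⟩ := disjoint_translates (Ioc x (2 * x)) H
        rw [Nat.card_Ioc] at hZ3
        have hnum2 := (hnum H.card h2).2 Z.card (by omega)
        have hsub2 : {ω | ∀ n ∈ Ioc x (2 * x), ¬ ∀ a ∈ H, n + a ∈ A ω} ⊆
            {ω | ∀ n ∈ Z, ¬ ∀ m ∈ sh n H, m ∈ A ω} := by
          intro ω hω n hn hcon
          apply hω n (hZ1 hn)
          intro a ha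
          exact hcon _ (mem_sh.2 ⟨a, ha, rfl⟩)
        refine (measureReal_mono (μ := μ) hsub2 (measure_ne_top _ _)).trans ?_
        have hZx : ∀ n ∈ Z, x < n ∧ n ≤ 2 * x := fun n hn => by
          have := hZ1 hn
          rwa [mem_Ioc] at this
        have hlogub : ∀ n ∈ Z, ∀ m ∈ sh n H, 1 < Real.log (m : ℝ) ∧ Real.log (m : ℝ) ≤ (C + 2) * Real.log x := by
          intro n hn m hm
          obtain ⟨a, ha, rfl⟩ := mem_sh.1 hm
          have h3 := hZx n hn
          have h4 := h1 a ha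
          refine ⟨one_lt_log (by omega), ?_⟩
          have h5 : n + a ≤ x ^ (C + 2) := by
            have h6 : 1 ≤ x ^ C := Nat.one_le_pow _ _ (by omega)
            have h7 : x ^ (C + 2) = x ^ C * (x * x) := by ring
            rw [h7]
            have h8 : n ≤ x ^ C * (2 * x) := h3.2.trans (Nat.le_mul_of_pos_left _ h6)
            have h9 : x ^ C * (2 * x) + x ^ C = x ^ C * (2 * x + 1) := by ring
            have h10 : x ^ C * (2 * x + 1) ≤ x ^ C * (x * x) := Nat.mul_le_mul_left _ (by nlinarith)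
            omega
          have h6 : Real.log ((n + a : ℕ) : ℝ) ≤ Real.log ((x : ℝ) ^ (C + 2)) := by
            apply Real.log_le_log
            · have : 0 < n + a := by omega
              exact_mod_cast this
            · exact_mod_cast h5
          rw [Real.log_pow] at h6
          push_cast at h6 ⊢
          exact h6
        refine (real_none_in hA Z (fun n => sh n H) (fun n hn m hm => ?_) hZ2
          (p := (1 / ((C + 2) * Real.log x)) ^ H.card) (fun n hn => ?_)).trans ?_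
        · obtain ⟨a, ha, rfl⟩ := mem_sh.1 hm
          have := hZx n hn
          omega
        · rw [← card_sh n H, ← prod_const]
          apply Finset.prod_le_prod
          · intro i _
            positivity
          · intro m hm
            have h3 := hlogub n hn m hm
            exact one_div_le_one_div_of_le (by linarith) h3.2
        · rw [Real.exp_le_exp]
          linarith
      · rw [measureReal_empty]
        exact (Real.exp_pos _).le
    have h1 := (measureReal_mono (μ := μ) hsub (measure_ne_top _ _)).trans (real_biUnion_le I E hEb)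
    refine h1.trans ?_
    exact mul_le_mul_of_nonneg_right hcard (Real.exp_pos _).le
  have h1 := ae_eventually_notMem (tsum_ne_top_of_real (μ := μ) hs (f := B) hbound)
  filter_upwards [h1] with ω hω
  filter_upwards [hω] with x hx
  rw [hB] at hx
  exact not_not.1 hx

end Pool.Agent.Q120.RN
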